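import Pool.Agent.H26.NO.Targets

/-!
# Row FI of the board nok (helper26, MP_0cd084_nt)

The order of `log (N k)` for almost all `k`.
-/

set_option autoImplicit false

open Finset

namespace Pool.Agent.H13.NOK

open Pool.Agent.H26.NO
open Pool.Agent.H73.NK (SPM fm)

theorem pf_FI (hAS : T_AS) (hUP : T_UP) (hLB : T_LB) : T_FI := by
  obtain ⟨c₀, x₁, hc₀, hlb⟩ := hLB
  obtain ⟨x₂, hup⟩ := hUP
  set c : ℝ := min c₀ 1 / 2 with hc
  have hcpos : 0 < c := by
    rw [hc]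
    have : 0 < min c₀ 1 := lt_min hc₀ one_pos
    linarith
  have h2c0 : 2 * c ≤ c₀ := by
    rw [hc]
    have := min_le_left c₀ 1
    linarith
  have h2c1 : 2 * c ≤ 1 := by
    rw [hc]
    have := min_le_right c₀ 1
    linarith
  set K : ℝ := max 2 (1 / c) with hK
  have hK2 : 2 ≤ K := le_max_left _ _
  have hKc : 1 / c ≤ K := le_max_right _ _
  obtain ⟨x₃, has⟩ := hAS K
  refine ⟨c, 68, max (max x₁ x₂) (max x₃ 0), hcpos, ?_⟩
  intro x hx
  have hx1 : x₁ ≤ x := (le_max_left _ _).trans ((le_max_left _ _).trans hx)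
  have hx2 : x₂ ≤ x := (le_max_right _ _).trans ((le_max_left _ _).trans hx)
  have hx3 : x₃ ≤ x := (le_max_left _ _).trans ((le_max_right _ _).trans hx)
  have hx0 : 0 ≤ x := (le_max_right _ _).trans ((le_max_right _ _).trans hx)
  obtain ⟨-, -, -, -, hs0, -, -, hxe, -, hg, hgs⟩ := has x hx3
  set g : ℝ := gx x with hgdef
  set s : ℝ := sx x with hsdef
  have hg0 : 0 ≤ g := by linarith
  have hcg : 1 ≤ c * g := by
    have h1 : 1 / c ≤ g := hKc.trans hg
    rw [div_le_iff₀ hcpos] at h1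
    linarith
  have hexp2 : Real.exp (-(c * g)) ≤ 1 / 2 := by
    have h1 : Real.exp (-(c * g)) ≤ Real.exp (-1) := Real.exp_le_exp.mpr (by linarith)
    have h2 : Real.exp (-1) ≤ 1 / 2 := by
      rw [Real.exp_neg, inv_eq_one_div]
      apply one_div_le_one_div_of_le (by norm_num)
      have := Real.add_one_le_exp (1 : ℝ)
      linarith
    exact h1.trans h2
  have hexp0 : 0 < Real.exp (-(c * g)) := Real.exp_pos _
  have hexpsq : Real.exp (-(2 * c * g)) = Real.exp (-(c * g)) * Real.exp (-(c * g)) := by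
    rw [← Real.exp_add]
    congr 1
    ring
  have hA : x * Real.exp (-(c₀ * g)) ≤ x * Real.exp (-(2 * c * g)) := by
    apply mul_le_mul_of_nonneg_left _ hx0
    apply Real.exp_le_exp.mpr
    nlinarith
  have hB : x * Real.exp (-g) ≤ x * Real.exp (-(2 * c * g)) := by
    apply mul_le_mul_of_nonneg_left _ hx0
    apply Real.exp_le_exp.mpr
    nlinarith
  have hC : 2 * (x * Real.exp (-(2 * c * g))) ≤ x * Real.exp (-(c * g)) := by
    rw [hexpsq]
    have h3 : 0 ≤ x * Real.exp (-(c * g)) := by positivity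
    nlinarith
  have hcc : Real.exp (c * g) ≤ Real.exp (c₀ * g) := Real.exp_le_exp.mpr (by nlinarith)
  constructor
  · set F₁ : Finset ℕ := (Icc 2 ⌊x⌋₊).filter
      (fun k => Real.exp (68 * gx x) < ((SPM k).ncard : ℝ)) with hF1
    set F₂ : Finset ℕ := (Ioc 0 (0 + ⌊x⌋₊)).filter
      (fun k => ((SPM k).ncard : ℝ) < Real.exp (c₀ * gx x)) with hF2
    have hsub : {k : ℕ | 2 ≤ k ∧ (k : ℝ) ≤ x ∧ ¬ (Real.exp (c * g) ≤ ((SPM k).ncard : ℝ) ∧
        ((SPM k).ncard : ℝ) ≤ Real.exp (68 * g))} ⊆ (↑(F₁ ∪ F₂) : Set ℕ) := by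
      rintro k ⟨hk2, hkx, hk⟩
      have hkf : k ≤ ⌊x⌋₊ := Nat.le_floor hkx
      rw [mem_coe, mem_union]
      by_cases h : Real.exp (68 * g) < ((SPM k).ncard : ℝ)
      · left
        rw [hF1, mem_filter, mem_Icc]
        exact ⟨⟨hk2, hkf⟩, h⟩
      · right
        rw [hF2, mem_filter, mem_Ioc, zero_add]
        refine ⟨⟨by omega, hkf⟩, ?_⟩
        push Not at h
        by_contra hcon
        push Not at hcon
        exact hk ⟨hcc.trans hcon, h⟩
    have hcard : (({k : ℕ | 2 ≤ k ∧ (k : ℝ) ≤ x ∧ ¬ (Real.exp (c * g) ≤ ((SPM k).ncard : ℝ) ∧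
        ((SPM k).ncard : ℝ) ≤ Real.exp (68 * g))}.ncard : ℕ) : ℝ) ≤ (F₁.card : ℝ) + F₂.card := by
      have h1 := Set.ncard_le_ncard hsub (Finset.finite_toSet _)
      rw [Set.ncard_coe_finset] at h1
      have h2 := h1.trans (card_union_le F₁ F₂)
      exact_mod_cast h2
    have e1 := hup x hx2
    have e2 := hlb x hx1 0
    calc _ ≤ (F₁.card : ℝ) + F₂.card := hcard
      _ ≤ x * Real.exp (-g) + x * Real.exp (-(c₀ * g)) := add_le_add e1 e2
      _ ≤ 2 * (x * Real.exp (-(2 * c * g))) := by linarith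
      _ ≤ x * Real.exp (-(c * g)) := hC
  · intro y hy
    set u : ℕ := ⌊y⌋₊ with hu
    set F₂ : Finset ℕ := (Ioc u (u + ⌊x⌋₊)).filter
      (fun k => ((SPM k).ncard : ℝ) < Real.exp (c₀ * gx x)) with hF2
    have hsub : {k : ℕ | y < (k : ℝ) ∧ (k : ℝ) ≤ y + x ∧
        ((SPM k).ncard : ℝ) < Real.exp (c * g)} ⊆ (↑(insert (u + ⌊x⌋₊ + 1) F₂) : Set ℕ) := by
      rintro k ⟨hk1, hk2, hk3⟩
      rw [mem_coe, mem_insert]
      have huk : u < k := (Nat.floor_lt hy).mpr hk1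
      have hle : k ≤ u + ⌊x⌋₊ + 1 := by
        have h1 : y < (u : ℝ) + 1 := Nat.lt_floor_add_one y
        have h2 : x < (⌊x⌋₊ : ℝ) + 1 := Nat.lt_floor_add_one x
        have h3 : (k : ℝ) < ((u + ⌊x⌋₊ + 2 : ℕ) : ℝ) := by
          push_cast
          linarith
        have h4 : k < u + ⌊x⌋₊ + 2 := by exact_mod_cast h3
        omega
      rcases Nat.lt_or_ge (u + ⌊x⌋₊) k with h | h
      · left
        omega
      · right
        rw [hF2, mem_filter, mem_Ioc]
        exact ⟨⟨huk, h⟩, hk3.trans_le hcc⟩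
    have hcard : (({k : ℕ | y < (k : ℝ) ∧ (k : ℝ) ≤ y + x ∧
        ((SPM k).ncard : ℝ) < Real.exp (c * g)}.ncard : ℕ) : ℝ) ≤ (F₂.card : ℝ) + 1 := by
      have h1 := Set.ncard_le_ncard hsub (Finset.finite_toSet _)
      rw [Set.ncard_coe_finset] at h1
      have h2 := h1.trans (card_insert_le _ F₂)
      exact_mod_cast h2
    have e2 := hlb x hx1 u
    have hs4 : 4 ≤ s := by nlinarith
    have hgs' : g ≤ s := by nlinarith
    have hbig : 2 ≤ x * Real.exp (-(c * g)) := by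
      rw [hxe, ← Real.exp_add]
      have h1 : 1 ≤ s ^ 2 + -(c * g) := by nlinarith
      have h2 := Real.add_one_le_exp (s ^ 2 + -(c * g))
      linarith
    calc _ ≤ (F₂.card : ℝ) + 1 := hcard
      _ ≤ x * Real.exp (-(c₀ * g)) + 1 := by linarith
      _ ≤ x * Real.exp (-(2 * c * g)) + x * Real.exp (-(c * g)) / 2 := by linarith
      _ ≤ x * Real.exp (-(c * g)) := by linarith

end Pool.Agent.H13.NOK
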